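import Mathlib
import Pool.Agent.Lib_helper80.CP.Forest

/-!
# CZ: colouring a forest along large blocks
-/

set_option autoImplicit false
set_option linter.unusedSectionVars false

open Cardinal Ordinal Set

namespace Pool.Agent.CZ

open Pool.Agent.H68.OG Pool.Agent.CP

/-- small unions -/
theorem big_union {K : Cardinal.{0}} (hK : K.IsRegular) {α : Type} {ι : Type} (hι : #ι < K)
    (S : Set α) (T : ι → Set α) (h : K ≤ #S) (hc : S ⊆ ⋃ n, T n) :
    ∃ n, K ≤ #{v | v ∈ S ∧ v ∈ T n} := by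
  by_contra hcon
  push Not at hcon
  refine absurd h (not_le.2 ?_)
  refine (Cardinal.mk_le_mk_of_subset (t := ⋃ n, {v | v ∈ S ∧ v ∈ T n}) ?_).trans_lt ?_
  · intro x hx
    obtain ⟨n, hn⟩ := Set.mem_iUnion.1 (hc hx)
    exact Set.mem_iUnion.2 ⟨n, hx, hn⟩
  · rw [Cardinal.card_iUnion_lt_iff_forall_of_isRegular hK hι]
    exact hcon

/-- a large set is split into large sets indexed by `Θ` -/
theorem split_big {Θ : Type} [Infinite Θ] {V : Type} (S : Set V) (hS : Order.succ #Θ ≤ #S) :
    ∃ h : V → Θ, ∀ a, Order.succ #Θ ≤ #{v | v ∈ S ∧ h v = a} := by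
  classical
  set K : Cardinal.{0} := Order.succ #Θ with hK
  have hΘ : ℵ₀ ≤ #Θ := Cardinal.infinite_iff.1 inferInstance
  have hmk : #K.ord.ToType = K := by rw [Cardinal.mk_toType, Cardinal.card_ord]
  obtain ⟨e⟩ : Nonempty (K.ord.ToType × Θ ↪ S) := by
    rw [← Cardinal.le_def]
    refine le_trans ?_ hS
    rw [Cardinal.mk_prod, Cardinal.lift_id, Cardinal.lift_id, hmk]
    exact Cardinal.mul_le_of_le (hΘ.trans (Order.le_succ _)) le_rfl (Order.le_succ _)
  let d : Θ := Classical.arbitrary Θ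
  refine ⟨fun v => if h : ∃ p, (e p : V) = v then h.choose.2 else d, fun a => ?_⟩
  have hinj : Function.Injective fun w : K.ord.ToType => (e (w, a) : V) := by
    intro w w' h
    have h1 : e (w, a) = e (w', a) := Subtype.ext h
    exact congrArg Prod.fst (e.injective h1)
  have hval : ∀ w : K.ord.ToType, (if h : ∃ p, (e p : V) = (e (w, a) : V) then h.choose.2 else d)
      = a := by
    intro w
    have hex : ∃ p, (e p : V) = (e (w, a) : V) := ⟨(w, a), rfl⟩
    have h1 : (if h : ∃ p, (e p : V) = (e (w, a) : V) then h.choose.2 else d) = hex.choose.2 :=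
      dif_pos hex
    have h2 : e hex.choose = e (w, a) := Subtype.ext hex.choose_spec
    rw [h1, e.injective h2]
  calc K = #K.ord.ToType := hmk.symm
    _ ≤ _ := Cardinal.mk_le_of_injective (f := fun w : K.ord.ToType =>
      (⟨(e (w, a) : V), (e (w, a)).2, hval w⟩ : {v | v ∈ S ∧
        (if h : ∃ p, (e p : V) = v then h.choose.2 else d) = a})) (by
          intro w w' h
          have h2 := congrArg Subtype.val h
          exact hinj h2)

section Color

variable {Θ V : Type} {out : V → Finset V}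

open Classical in
/-- the colours below `v`, with levels -/
noncomputable def pat (out : V → Finset V) (c : V → Θ) (v : V) : Finset (ℕ × Θ) :=
  (out v).image fun u => ((out u).card, c u)

theorem mem_pat (c : V → Θ) (v : V) (p : ℕ × Θ) :
    p ∈ pat out c v ↔ ∃ u ∈ out v, ((out u).card, c u) = p := by
  classical
  unfold pat
  rw [Finset.mem_image]

theorem pat_congr (c c' : V → Θ) (v : V) (h : ∀ u ∈ out v, c u = c' u) :
    pat out c v = pat out c' v := by
  classical
  ext p
  rw [mem_pat, mem_pat]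
  constructor
  · rintro ⟨u, hu, rfl⟩
    exact ⟨u, hu, by rw [h u hu]⟩
  · rintro ⟨u, hu, rfl⟩
    exact ⟨u, hu, by rw [h u hu]⟩

/-- predecessors at the same level are equal -/
theorem lev_inj (hT : Tr out) {v u u' : V} (hu : u ∈ out v) (hu' : u' ∈ out v)
    (h : (out u).card = (out u').card) : u = u' := by
  rcases hT.chain v u hu u' hu' with h1 | h1 | h1
  · exact h1
  · exact absurd (Cl.lt hT h1) (by rw [h]; exact lt_irrefl _)
  · exact absurd (Cl.lt hT h1) (by rw [h]; exact lt_irrefl _)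

theorem color_step [Infinite Θ] {ι : Type} (I : ι → Set V)
    (hd : ∀ i j v, v ∈ I i → v ∈ I j → i = j)
    (m : ℕ) (c : V → Θ) : ∃ c' : V → Θ, (∀ v, (out v).card ≠ m → c' v = c v) ∧
      ∀ i, Order.succ #Θ ≤ #{v | v ∈ I i ∧ (out v).card = m} → ∃ T : Finset (ℕ × Θ), ∀ a,
        Order.succ #Θ ≤ #{v | v ∈ I i ∧ (out v).card = m ∧ pat out c v = T ∧ c' v = a} := by
  classical
  have hΘ : ℵ₀ ≤ #Θ := Cardinal.infinite_iff.1 inferInstance
  have hK : (Order.succ #Θ).IsRegular := Cardinal.isRegular_succ hΘ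
  have hN : Infinite (ℕ × Θ) := inferInstance
  have hpc : #(Finset (ℕ × Θ)) < Order.succ #Θ := by
    rw [Cardinal.mk_finset_of_infinite, Cardinal.mk_prod, Cardinal.lift_id, Cardinal.lift_id,
      Cardinal.mk_nat, Order.lt_succ_iff]
    exact Cardinal.mul_le_of_le hΘ hΘ le_rfl
  have h1 : ∀ i, ∃ (T : Finset (ℕ × Θ)) (h : V → Θ),
      Order.succ #Θ ≤ #{v | v ∈ I i ∧ (out v).card = m} → ∀ a,
        Order.succ #Θ ≤ #{v | v ∈ I i ∧ (out v).card = m ∧ pat out c v = T ∧ h v = a} := by
    intro i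
    by_cases hi : Order.succ #Θ ≤ #{v | v ∈ I i ∧ (out v).card = m}
    · obtain ⟨T, hT⟩ := big_union hK hpc {v | v ∈ I i ∧ (out v).card = m}
        (fun T : Finset (ℕ × Θ) => {v | pat out c v = T}) hi
        (fun v _ => Set.mem_iUnion.2 ⟨_, rfl⟩)
      obtain ⟨h, hh⟩ := split_big _ hT
      refine ⟨T, h, fun _ a => (hh a).trans (Cardinal.mk_le_mk_of_subset ?_)⟩
      rintro v ⟨⟨⟨hv1, hv2⟩, hv3⟩, hv4⟩
      exact ⟨hv1, hv2, hv3, hv4⟩
    · exact ⟨∅, fun _ => Classical.arbitrary Θ, fun h => absurd h hi⟩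
  choose T h hTh using h1
  refine ⟨fun v => if (out v).card = m then (if hv : ∃ i, v ∈ I i then h hv.choose v else
    Classical.arbitrary Θ) else c v, fun v hv => if_neg hv, ?_⟩
  intro i hi
  refine ⟨T i, fun a => (hTh i hi a).trans (Cardinal.mk_le_mk_of_subset ?_)⟩
  rintro v ⟨hv1, hv2, hv3, hv4⟩
  refine ⟨hv1, hv2, hv3, ?_⟩
  have hex : ∃ i, v ∈ I i := ⟨i, hv1⟩
  have h2 : hex.choose = i := hd _ _ v hex.choose_spec hv1
  beta_reduce
  rw [if_pos hv2, dif_pos hex, h2]
  exact hv4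

/-- The colouring. -/
theorem color_blocks [Infinite Θ] (hT : Tr out) {ι : Type} (I : ι → Set V)
    (hd : ∀ i j v, v ∈ I i → v ∈ I j → i = j) (hI : ∀ i, Order.succ #Θ ≤ #(I i)) :
    ∃ (color : V → Θ) (T : ι → Finset (ℕ × Θ)) (n : ι → ℕ), ∀ i a,
      Order.succ #Θ ≤
        #{v | v ∈ I i ∧ (out v).card = n i ∧ pat out color v = T i ∧ color v = a} := by
  classical
  have hΘ : ℵ₀ ≤ #Θ := Cardinal.infinite_iff.1 inferInstance
  have hK : (Order.succ #Θ).IsRegular := Cardinal.isRegular_succ hΘ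
  choose st hst1 hst2 using fun m c => color_step (Θ := Θ) (out := out) I hd m c
  let col : ℕ → V → Θ := fun m => Nat.rec (fun _ => Classical.arbitrary Θ) (fun m c => st m c) m
  have hcol : ∀ m, col (m + 1) = st m (col m) := fun m => rfl
  have hstab : ∀ v m, (out v).card < m → col m v = col ((out v).card + 1) v := by
    intro v m hm
    induction m, hm using Nat.le_induction with
    | base => rfl
    | succ m hm ih =>
      have hm' : (out v).card < m := hm
      rw [hcol, hst1 m (col m) v hm'.ne, ih]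
  have hlev : ∀ i, ∃ n, Order.succ #Θ ≤ #{v | v ∈ I i ∧ (out v).card = n} := by
    intro i
    obtain ⟨n, hn⟩ := big_union hK (ι := ℕ) (by
      rw [Cardinal.mk_nat, Order.lt_succ_iff]
      exact hΘ) (I i) (fun n => {v | (out v).card = n}) (hI i)
      (fun v _ => Set.mem_iUnion.2 ⟨_, rfl⟩)
    exact ⟨n, hn⟩
  choose n hn using hlev
  choose T hTn using fun i => hst2 (n i) (col (n i)) i (hn i)
  refine ⟨fun v => col ((out v).card + 1) v, T, n, fun i a => (hTn i a).trans
    (Cardinal.mk_le_mk_of_subset ?_)⟩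
  rintro v ⟨hv1, hv2, hv3, hv4⟩
  refine ⟨hv1, hv2, ?_, ?_⟩
  · rw [← hv3]
    refine pat_congr _ _ v fun u hu => ?_
    exact (hstab u (n i) (by rw [← hv2]; exact Cl.lt hT hu)).symm
  · show col ((out v).card + 1) v = a
    rw [hv2, hcol]
    exact hv4

end Color

end Pool.Agent.CZ
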