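import Mathlib

/-!
# CZ: converging sequences of partial functions
-/

set_option autoImplicit false
set_option linter.unusedSectionVars false

open Cardinal Ordinal Set

namespace Pool.Agent.CZ

/-- for `Ω` many functions `ℕ → Θ` there is one which is eventually different from all -/
def EDT (Θ Ω : Type) : Prop := ∀ E : Ω → ℕ → Θ, ∃ f : ℕ → Θ, ∀ z, {n | f n = E z n}.Finite

variable {Θ : Type}

/-- `g` avoids the partial function `F` -/
def Av (g : ℕ → Θ) (F : ℕ → Option Θ) : Prop := ∀ n, F n ≠ some (g n)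

/-- `s` converges to `Φ` and its terms are disjoint where `Φ` is undefined -/
def Sep (s : ℕ → ℕ → Option Θ) (Φ : ℕ → Option Θ) : Prop :=
  (∀ c k a, c < k → Φ c = some a → s k c = some a) ∧
    ∀ c k k' a, c < k → c < k' → Φ c = none → s k c = some a → s k' c = some a → k = k'

/-- a function which avoids the limit and is eventually different avoids a term -/
theorem lim_one (t : ℕ → ℕ → Option Θ) (Φ : ℕ → Option Θ) (hS : Sep t Φ) (g : ℕ → Θ)
    (hg : Av g Φ) (hc : ∃ c0, ∀ c, c0 ≤ c → ∀ k ≤ 2 * c, t k c ≠ some (g c)) :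
    ∃ k, Av g (t k) := by
  classical
  obtain ⟨c0, hc0⟩ := hc
  by_contra hcon
  have hcon' : ∀ k, ∃ c, t k c = some (g c) := by
    intro k
    by_contra h
    push Not at h
    exact hcon ⟨k, h⟩
  choose c hck using hcon'
  -- where `Φ` is defined
  have hN : ∀ k, c k < k → Φ (c k) = none := by
    intro k hk
    rcases hΦ : Φ (c k) with _ | a
    · rfl
    · have h1 := hS.1 (c k) k a hk hΦ
      rw [hck k] at h1
      exact absurd (hΦ.trans h1.symm) (hg (c k))
  have hinj : ∀ k k', c k < k → c k' < k' → c k = c k' → k = k' := by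
    intro k k' hk hk' h
    refine hS.2 (c k) k k' (g (c k)) hk (h ▸ hk') (hN k hk) (hck k) ?_
    rw [h]
    exact hck k'
  -- only finitely many terms are hit below `c0`
  have hfin : {k | c0 < k ∧ c k < c0}.Finite := by
    refine Set.Finite.of_finite_image (f := c) ((Set.finite_Iio c0).subset ?_) ?_
    · rintro _ ⟨k, hk, rfl⟩
      exact hk.2
    · intro k hk k' hk' h
      exact hinj k k' (hk.2.trans hk.1) (hk'.2.trans hk'.1) h
  obtain ⟨k1, hk1⟩ := hfin.bddAbove
  have hbig : ∀ k, max k1 c0 < k → 2 * c k < k := by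
    intro k hk
    have h1 : c0 ≤ c k := by
      by_contra h
      have h2 := hk1 ⟨(le_max_right k1 c0).trans_lt hk, not_le.1 h⟩
      have h3 := le_max_left k1 c0
      omega
    by_contra h
    exact hc0 (c k) h1 k (by omega) (hck k)
  obtain ⟨N, hN1, hN2⟩ : ∃ N, k1 ≤ N ∧ c0 ≤ N := ⟨max k1 c0, le_max_left _ _, le_max_right _ _⟩
  have hbig' : ∀ k, N < k → 2 * c k < k := fun k hk => hbig k (by
    rw [max_lt_iff]
    omega)
  -- pigeonhole
  have hmaps : Set.MapsTo c (Finset.Icc (N + 1) (2 * N + 2) : Finset ℕ)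
      (Finset.range (N + 1) : Finset ℕ) := by
    intro k hk
    have hk' := Finset.mem_Icc.1 (Finset.mem_coe.1 hk)
    have h2 := hbig' k (by omega)
    exact Finset.mem_coe.2 (Finset.mem_range.2 (by omega))
  obtain ⟨k, hk, k', hk', hne, he⟩ := Finset.exists_ne_map_eq_of_card_lt_of_maps_to (by
    rw [Finset.card_range, Nat.card_Icc]
    omega) hmaps
  have hk2 := Finset.mem_Icc.1 hk
  have hk2' := Finset.mem_Icc.1 hk'
  have h3 := hbig' k (by omega)
  have h4 := hbig' k' (by omega)
  exact hne (hinj k k' (by omega) (by omega) he)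

/-- one function for many sequences -/
theorem exists_av [Infinite Θ] {Ω : Type} (h : EDT Θ Ω) (s : Ω → ℕ → ℕ → Option Θ) {P : Type}
    [Finite P] (G : P → ℕ → Option Θ) (hG : ∀ p, ∃ z, ∀ k, s z k = G p) :
    ∃ g : ℕ → Θ, (∀ p, Av g (G p)) ∧
      ∀ z, ∃ c0, ∀ c, c0 ≤ c → ∀ k ≤ 2 * c, s z k c ≠ some (g c) := by
  classical
  obtain ⟨cd⟩ : Nonempty (List Θ ↪ Θ) := by
    rw [← Cardinal.le_def, Cardinal.mk_list_eq_mk]
  let d : Θ := Classical.arbitrary Θ
  let dec : Θ → List Θ := Function.invFun cd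
  have hdec : ∀ L, dec (cd L) = L := fun L => Function.leftInverse_invFun cd.injective L
  let E : Ω → ℕ → Θ := fun z n =>
    (dec ((s z (Nat.unpair n).2 (Nat.unpair n).1).getD d)).getD (Nat.unpair n).2 d
  obtain ⟨f, hf⟩ := h E
  let L : ℕ → List Θ := fun c => (List.range (2 * c + 1)).map fun i => f (Nat.pair c i)
  let g0 : ℕ → Θ := fun c => cd (L c)
  have hL : ∀ c i, i ≤ 2 * c → (L c).getD i d = f (Nat.pair c i) := by
    intro c i hi
    have h1 : i < (L c).length := by
      simp only [L, List.length_map, List.length_range]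
      omega
    rw [List.getD_eq_getElem _ _ h1]
    simp [L]
  have hg0 : ∀ z, ∃ c0, ∀ c, c0 ≤ c → ∀ k ≤ 2 * c, s z k c ≠ some (g0 c) := by
    intro z
    obtain ⟨b, hb⟩ := (hf z).bddAbove
    refine ⟨b + 1, fun c hc k hk he => ?_⟩
    have h1 : f (Nat.pair c k) = E z (Nat.pair c k) := by
      show f (Nat.pair c k) = (dec
        ((s z (Nat.unpair (Nat.pair c k)).2 (Nat.unpair (Nat.pair c k)).1).getD d)).getD
          (Nat.unpair (Nat.pair c k)).2 d
      rw [Nat.unpair_pair]
      show f (Nat.pair c k) = (dec ((s z k c).getD d)).getD k d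
      rw [he, Option.getD_some, hdec, hL c k hk]
    have h2 := hb h1
    have h3 := Nat.left_le_pair c k
    omega
  -- finitely many changes
  have hex : ∀ c, ∃ a, ∀ p, G p c ≠ some a := by
    intro c
    have hfin : (Set.range fun p => (G p c).getD d).Finite := Set.finite_range _
    obtain ⟨a, ha⟩ := hfin.exists_notMem
    refine ⟨a, fun p hp => ha ⟨p, ?_⟩⟩
    show (G p c).getD d = a
    rw [hp, Option.getD_some]
  choose a ha using hex
  have hc1 : ∃ c1, ∀ p c, c1 ≤ c → G p c ≠ some (g0 c) := by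
    have h1 : ∀ p, ∃ c1, ∀ c, c1 ≤ c → G p c ≠ some (g0 c) := by
      intro p
      obtain ⟨z, hz⟩ := hG p
      obtain ⟨c0, hc0⟩ := hg0 z
      refine ⟨c0, fun c hc => ?_⟩
      have h2 := hc0 c hc 0 (Nat.zero_le _)
      rwa [hz] at h2
    choose c1 hc1 using h1
    obtain ⟨b, hb⟩ := (Set.finite_range c1).bddAbove
    exact ⟨b, fun p c hc => hc1 p c ((hb ⟨p, rfl⟩).trans hc)⟩
  obtain ⟨c1, hc1⟩ := hc1
  refine ⟨fun c => if c < c1 then a c else g0 c, ?_, ?_⟩
  · intro p c
    beta_reduce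
    by_cases hc : c < c1
    · rw [if_pos hc]
      exact ha c p
    · rw [if_neg hc]
      exact hc1 p c (not_lt.1 hc)
  · intro z
    obtain ⟨c0, hc0⟩ := hg0 z
    refine ⟨max c0 c1, fun c hc k hk => ?_⟩
    beta_reduce
    rw [if_neg (not_lt.2 ((le_max_right _ _).trans hc))]
    exact hc0 c ((le_max_left _ _).trans hc) k hk

end Pool.Agent.CZ
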