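import Mathlib
import Pool.Agent.Lib_helper68.OG16
import Pool.Agent.Lib_helper80.CX.Split
import Pool.Agent.Lib_helper80.CZ.Seq

/-!
# CZ: kernels
-/

set_option autoImplicit false
set_option linter.unusedSectionVars false

open Cardinal Ordinal Set

namespace Pool.Agent.CZ

open Pool.Agent.H68.OG Pool.Agent.CX

/-- converging sequences -/
structure Sq (Θ : Type) : Type where
  s : ℕ → ℕ → Option Θ
  lim : ℕ → Option Θ
  sep : Sep s lim

/-- if `g` avoids the limit then it avoids a term -/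
def Sq.Ok {Θ : Type} (q : Sq Θ) (g : ℕ → Θ) : Prop := Av g q.lim → ∃ k, Av g (q.s k)

/-- `lam` many partial functions condense -/
theorem cond {Θ : Type} {lam : Cardinal.{0}} (hlam : lam.IsRegular)
    (f : lam.ord.ToType → ℕ → Option Θ) :
    ∃ Φ : ℕ → Option Θ, ∀ ξ : lam.ord.ToType, ∃ q : Sq Θ, q.lim = Φ ∧
      ∀ k, ∃ i, ξ ≤ i ∧ q.s k = f i := by
  classical
  have hmk : Cardinal.mk lam.ord.ToType = lam := by rw [Cardinal.mk_toType, Cardinal.card_ord]
  let Big : Set lam.ord.ToType → ℕ → Θ → Prop := fun Z n a => lam ≤ #{i | i ∈ Z ∧ f i n = some a}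
  let val : Set lam.ord.ToType → ℕ → Option Θ := fun Z n =>
    if h : ∃ a, Big Z n a then some h.choose else none
  let Z : ℕ → Set lam.ord.ToType := fun n => Nat.rec Set.univ
    (fun n Z => if h : ∃ a, Big Z n a then {i | i ∈ Z ∧ f i n = some h.choose} else Z) n
  let Φ : ℕ → Option Θ := fun n => val (Z n) n
  have hZs : ∀ n, Z (n + 1) = if h : ∃ a, Big (Z n) n a then
      {i | i ∈ Z n ∧ f i n = some h.choose} else Z n := fun n => rfl
  have hΦ : ∀ n, Φ n = if h : ∃ a, Big (Z n) n a then some h.choose else none := fun n => rfl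
  have hZ1 : ∀ n, Z (n + 1) ⊆ Z n := by
    intro n
    rw [hZs]
    by_cases h : ∃ a, Big (Z n) n a
    · rw [dif_pos h]
      exact fun i hi => hi.1
    · rw [dif_neg h]
  have hZm : ∀ m n, m ≤ n → Z n ⊆ Z m := by
    intro m n hmn
    induction n, hmn using Nat.le_induction with
    | base => exact subset_rfl
    | succ n _ ih => exact (hZ1 n).trans ih
  have hZc : ∀ n, lam ≤ #↥(Z n) := by
    intro n
    induction n with
    | zero =>
      show lam ≤ #(Set.univ : Set lam.ord.ToType)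
      rw [Cardinal.mk_univ, hmk]
    | succ n ih =>
      rw [hZs]
      by_cases h : ∃ a, Big (Z n) n a
      · rw [dif_pos h]
        exact h.choose_spec
      · rw [dif_neg h]
        exact ih
  have hA : ∀ n m, m < n → ∀ i ∈ Z n, ∀ a, Φ m = some a → f i m = some a := by
    intro n m hmn i hi a ha
    have h1 := hZm (m + 1) n hmn hi
    rw [hZs] at h1
    rw [hΦ] at ha
    by_cases h : ∃ a, Big (Z m) m a
    · rw [dif_pos h] at h1 ha
      rw [← ha]
      exact h1.2
    · rw [dif_neg h] at ha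
      simp at ha
  have hB : ∀ m, Φ m = none → ∀ a, #{i | i ∈ Z m ∧ f i m = some a} < lam := by
    intro m hm a
    rw [hΦ] at hm
    by_cases h : ∃ a, Big (Z m) m a
    · rw [dif_pos h] at hm
      simp at hm
    · by_contra hcon
      exact h ⟨a, not_lt.1 hcon⟩
  have hfind : ∀ (ξ : lam.ord.ToType) (n : ℕ) (J : Finset lam.ord.ToType), ∃ i, ξ ≤ i ∧
      i ∈ Z n ∧ ∀ m < n, Φ m = none → ∀ j ∈ J, ∀ a, f j m = some a → f i m ≠ some a := by
    intro ξ n J
    refine Classical.byContradiction fun hcon => ?_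
    push Not at hcon
    refine absurd (hZc n) (not_le.2 ?_)
    have hlt : #(Set.Iio ξ) < lam := Cardinal.mk_Iio_toType_ord_lt ξ
    have hbad : #(⋃ p : {p : Fin n × J // Φ p.1 = none},
        {i | i ∈ Z p.1.1 ∧ ∃ a, f p.1.2.1 p.1.1 = some a ∧ f i p.1.1 = some a}) < lam := by
      rw [Cardinal.card_iUnion_lt_iff_forall_of_isRegular hlam
        ((Cardinal.lt_aleph0_of_finite _).trans_le hlam.1)]
      rintro ⟨p, hp⟩
      rcases hj : f p.2.1 p.1 with _ | a
      · refine lt_of_le_of_lt (le_of_eq ?_) hlam.pos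
        rw [Cardinal.mk_eq_zero_iff, Set.isEmpty_coe_sort]
        ext i
        simp only [Set.mem_ofPred_eq, Set.mem_empty_iff_false, iff_false, not_and, not_exists]
        rintro - a h1
        simp at h1
      · refine lt_of_le_of_lt (Cardinal.mk_le_mk_of_subset ?_) (hB _ hp a)
        rintro i ⟨hi, b, h1, h2⟩
        refine ⟨hi, ?_⟩
        rw [h2, ← h1]
    refine (Cardinal.mk_le_mk_of_subset (t := Set.Iio ξ ∪
      ⋃ p : {p : Fin n × J // Φ p.1 = none},
        {i | i ∈ Z p.1.1 ∧ ∃ a, f p.1.2.1 p.1.1 = some a ∧ f i p.1.1 = some a}) ?_).trans_lt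
      ((Cardinal.mk_union_le _ _).trans_lt (Cardinal.add_lt_of_lt hlam.1 hlt hbad))
    intro i hi
    rcases lt_or_ge i ξ with h | h
    · exact Or.inl h
    · obtain ⟨m, hm, hΦm, j, hj, a, h1, h2⟩ := hcon i h hi
      exact Or.inr (Set.mem_iUnion.2 ⟨⟨(⟨m, hm⟩, ⟨j, hj⟩), hΦm⟩, hZm m n hm.le hi, a, h1, h2⟩)
  refine ⟨Φ, fun ξ => ?_⟩
  choose pick hp1 hp2 hp3 using hfind ξ
  let st : ℕ → Finset lam.ord.ToType := fun k => Nat.rec ∅ (fun k S => insert (pick k S) S) k
  have hst : ∀ k, st (k + 1) = insert (pick k (st k)) (st k) := fun k => rfl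
  have hstm : ∀ k k', k < k' → pick k (st k) ∈ st k' := by
    intro k k' hk
    induction k', hk using Nat.le_induction with
    | base =>
      rw [Nat.succ_eq_add_one, hst]
      exact Finset.mem_insert_self _ _
    | succ k' _ ih =>
      rw [hst]
      exact Finset.mem_insert_of_mem ih
  have hS : Sep (fun k => f (pick k (st k))) Φ := by
    constructor
    · intro c k a hc ha
      exact hA k c hc _ (hp2 k (st k)) a ha
    · have key : ∀ c k k' a, k < k' → c < k → Φ c = none → f (pick k (st k)) c = some a →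
          f (pick k' (st k')) c = some a → False := by
        intro c k k' a hkk hc hΦc h1 h2
        exact hp3 k' (st k') c (hc.trans hkk) hΦc _ (hstm k k' hkk) a h1 h2
      intro c k k' a hc hc' hΦc h1 h2
      rcases lt_trichotomy k k' with h3 | h3 | h3
      · exact (key c k k' a h3 hc hΦc h1 h2).elim
      · exact h3
      · exact (key c k' k a h3 hc' hΦc h2 h1).elim
  exact ⟨⟨fun k => f (pick k (st k)), Φ, hS⟩, rfl, fun k => ⟨pick k (st k), hp1 _ _, rfl⟩⟩

section Ker

variable {Θ W : Type} [LinearOrder W] [WellFoundedLT W] [Nonempty W]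

/-- the induction -/
theorem ker {κ : Cardinal.{0}} (hκ : ℵ₀ ≤ κ) (hW : #W ≤ κ) (F : W → ℕ → Option Θ) (β : Ordinal.{0}) :
    ∀ A : Set W, TG A (ω ^ β) → ∃ (Φ : ℕ → Option Θ) (S : Set (Sq Θ)), #S ≤ κ ∧
      ∀ g : ℕ → Θ, (∀ q ∈ S, q.Ok g) → Av g Φ → TG ({w | Av g (F w)} ∩ A) (ω ^ β) := by
  classical
  induction β using WellFoundedLT.induction with
  | ind β IH =>
    intro A hA
    rcases eq_or_ne β 0 with rfl | hβ
    · rw [Ordinal.opow_zero] at hA ⊢
      obtain ⟨v, hv⟩ := hA.nonempty zero_lt_one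
      refine ⟨F v, ∅, ?_, fun g _ hg => tg_one (v := v) ⟨hg, hv⟩⟩
      rw [Cardinal.mk_eq_zero]
      exact zero_le
    · obtain ⟨lam, b, hlam, hlamβ, hb, hsplit⟩ := split_opow β hβ
      obtain ⟨C, hC1, -, hC3⟩ := hsplit W A hA
      have hβκ : β.card ≤ κ := by
        have h1 : β ≤ ω ^ β := Ordinal.right_le_opow β Ordinal.one_lt_omega0
        have h2 : (ω ^ β : Ordinal.{0}) ≤ typ A := le_typ_of_tg hA
        have h3 : β.card ≤ (typ A).card := Ordinal.card_le_card (h1.trans h2)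
        unfold typ at h3
        rw [Ordinal.card_type] at h3
        exact h3.trans ((Cardinal.mk_set_le A).trans hW)
      have hlamκ : lam ≤ κ := by
        rcases hlamβ with h | h
        · rw [h]
          exact hκ
        · exact h.trans hβκ
      have hmk : Cardinal.mk lam.ord.ToType = lam := by rw [Cardinal.mk_toType, Cardinal.card_ord]
      choose Φi S hS hX using fun i => IH (b i) (hb i) (C i) (hC1 i).2
      obtain ⟨Φ, hΦ⟩ := cond hlam Φi
      choose q hq1 hq2 using hΦ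
      refine ⟨Φ, (⋃ i, S i) ∪ Set.range q, ?_, ?_⟩
      · refine (Cardinal.mk_union_le _ _).trans (Cardinal.add_le_of_le hκ ?_ ?_)
        · refine (Cardinal.mk_iUnion_le _).trans ?_
          refine Cardinal.mul_le_of_le hκ (hmk.le.trans hlamκ) ?_
          exact ciSup_le' hS
        · exact Cardinal.mk_range_le.trans (hmk.le.trans hlamκ)
      · intro g hg hgΦ
        refine hC3 _ {i | Av g (Φi i)} ?_ ?_
        · intro ξ
          have h1 : (q ξ).Ok g := hg _ (Or.inr ⟨ξ, rfl⟩)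
          obtain ⟨k, hk⟩ := h1 (by rw [hq1]; exact hgΦ)
          obtain ⟨i, hi, hik⟩ := hq2 ξ k
          rw [hik] at hk
          exact ⟨i, hk, hi⟩
        · intro i hi
          exact hX i g (fun q hq => hg q (Or.inl (Set.mem_iUnion.2 ⟨i, hq⟩))) hi

end Ker

/-- Decomposition into finitely many indecomposable sets. -/
def RD0 (α : Ordinal.{0}) : Prop :=
  ∀ (V : Type) [LinearOrder V] [WellFoundedLT V] [Nonempty V] (A : Set V), TG A α →
    ∃ (P : Type) (_ : Finite P) (B : P → Set V) (s : P → Ordinal.{0}),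
      (∀ p, TG (B p) (ω ^ s p)) ∧ ∀ X : Set V, (∀ p, TG (X ∩ B p) (ω ^ s p)) → TG (X ∩ A) α

theorem rd0_zero : RD0 0 := by
  intro V _ _ _ A _
  exact ⟨Empty, inferInstance, fun p => p.elim, fun p => p.elim, fun p => p.elim,
    fun X _ => tg_zero _⟩

theorem rd0_add {a b : Ordinal.{0}} (ha : RD0 a) (hb : RD0 b) : RD0 (a + b) := by
  intro V _ _ _ A hA
  obtain ⟨S, T, hSA, hTA, hS, hT, hST⟩ := hA.split
  obtain ⟨P₁, f₁, B₁, s₁, h12, h13⟩ := ha V S hS
  obtain ⟨P₂, f₂, B₂, s₂, h22, h23⟩ := hb V T hT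
  refine ⟨P₁ ⊕ P₂, inferInstance, fun p => Sum.elim B₁ B₂ p, fun p => Sum.elim s₁ s₂ p, ?_, ?_⟩
  · rintro (p | p)
    · exact h12 p
    · exact h22 p
  · intro X hX
    have h1 := h13 X fun p => hX (Sum.inl p)
    have h2 := h23 X fun p => hX (Sum.inr p)
    refine (h1.add h2 fun x hx y hy => hST x hx.2 y hy.2).mono ?_
    rintro x (hx | hx)
    · exact ⟨hx.1, hSA hx.2⟩
    · exact ⟨hx.1, hTA hx.2⟩

theorem rd0_opow (γ : Ordinal.{0}) : RD0 (ω ^ γ) := by
  intro V _ _ _ A hA
  exact ⟨Unit, inferInstance, fun _ => A, fun _ => γ, fun _ => hA, fun X hX => hX ()⟩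

theorem rd0_mul {a : Ordinal.{0}} (ha : RD0 a) (n : ℕ) : RD0 (a * n) := by
  induction n with
  | zero => rw [Nat.cast_zero, mul_zero]; exact rd0_zero
  | succ n ih => rw [Nat.cast_succ, mul_add, mul_one]; exact rd0_add ih ha

theorem rd0_all (β : Ordinal.{0}) : RD0 β := by
  induction β using WellFoundedLT.induction with
  | ind β IH =>
    rcases eq_or_ne β 0 with rfl | hβ
    · exact rd0_zero
    · set γ := Ordinal.log ω β with hγ
      have hpos : (ω : Ordinal.{0}) ^ γ ≠ 0 := (Ordinal.opow_pos γ Ordinal.omega0_pos).ne'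
      have hle : ω ^ γ ≤ β := Ordinal.opow_log_le_self ω hβ
      have hc : β / ω ^ γ < ω := Ordinal.div_opow_log_lt β Ordinal.one_lt_omega0
      have hmod : β % ω ^ γ < ω ^ γ := Ordinal.mod_lt β hpos
      obtain ⟨n, hn⟩ := Ordinal.lt_omega0.1 hc
      have hdm := Ordinal.div_add_mod β (ω ^ γ)
      have h4 := rd0_add (rd0_mul (rd0_opow γ) n) (IH _ (hmod.trans_le hle))
      rw [← hn, hdm] at h4
      exact h4

/-- one function avoids a set of large type -/
theorem av_type {Θ : Type} [Infinite Θ] {κ : Cardinal.{0}} (hκ : ℵ₀ ≤ κ)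
    (hE : EDT Θ κ.ord.ToType) {W : Type} [LinearOrder W] [WellFoundedLT W] [Nonempty W]
    (hW : #W ≤ κ) (F : W → ℕ → Option Θ) {δ : Ordinal.{0}} (hδ : TG (Set.univ : Set W) δ) :
    ∃ g : ℕ → Θ, TG {w | Av g (F w)} δ := by
  classical
  have hmk : #κ.ord.ToType = κ := by rw [Cardinal.mk_toType, Cardinal.card_ord]
  obtain ⟨P, hP, B, s, hB, hX⟩ := rd0_all δ W Set.univ hδ
  choose Φ S hS hD using fun p => ker hκ hW F (s p) (B p) (hB p)
  have hPc : #P ≤ κ := (Cardinal.lt_aleph0_of_finite P).le.trans hκ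
  have hSc : #(⋃ p, S p) ≤ κ := by
    refine (Cardinal.mk_iUnion_le _).trans ?_
    exact Cardinal.mul_le_of_le hκ hPc (ciSup_le' hS)
  obtain ⟨e⟩ : Nonempty (Option ((⋃ p, S p : Set (Sq Θ)) ⊕ P) ↪ κ.ord.ToType) := by
    rw [← Cardinal.le_def, hmk, Cardinal.mk_option, Cardinal.mk_sum, Cardinal.lift_id,
      Cardinal.lift_id]
    exact Cardinal.add_le_of_le hκ (Cardinal.add_le_of_le hκ hSc hPc)
      (Cardinal.one_lt_aleph0.le.trans hκ)
  let f : κ.ord.ToType → Option ((⋃ p, S p : Set (Sq Θ)) ⊕ P) := Function.invFun e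
  have hf : Function.Surjective f := Function.invFun_surjective e.injective
  let sY : Option ((⋃ p, S p : Set (Sq Θ)) ⊕ P) → ℕ → ℕ → Option Θ := fun y =>
    match y with
    | none => fun _ _ => none
    | some (Sum.inl q) => q.1.s
    | some (Sum.inr p) => fun _ => Φ p
  obtain ⟨g, hg1, hg2⟩ := exists_av hE (fun z => sY (f z)) Φ (by
    intro p
    obtain ⟨z, hz⟩ := hf (some (Sum.inr p))
    refine ⟨z, fun k => ?_⟩
    show sY (f z) k = Φ p
    rw [hz])
  refine ⟨g, ?_⟩
  have h3 := hX {w | Av g (F w)} (fun p => ?_)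
  · rw [Set.inter_univ] at h3
    exact h3
  · refine hD p g ?_ (hg1 p)
    intro q hq hqg
    obtain ⟨z, hz⟩ := hf (some (Sum.inl ⟨q, Set.mem_iUnion.2 ⟨p, hq⟩⟩))
    have h4 := hg2 z
    have h5 : sY (f z) = q.s := by rw [hz]
    simp only [h5] at h4
    exact lim_one q.s q.lim q.sep g hqg h4

end Pool.Agent.CZ
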