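import Mathlib
import Pool.Agent.Lib_helper68.OG16
import Pool.Agent.Lib_helper80.CY.Comb
import Pool.Agent.Lib_helper80.CZ.Color
import Pool.Agent.Lib_helper80.CZ.Ker

/-!
# CZ: the path property from eventually different functions
-/

set_option autoImplicit false
set_option linter.unusedSectionVars false
set_option linter.deprecated false

open Cardinal Ordinal Set

namespace Pool.Agent.CZ

open Pool.Agent.H68.OG Pool.Agent.CP

variable {V : Type} [LinearOrder V] [WellFoundedLT V] [Nonempty V]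

theorem blocks_any {A : Set V} {b δ : Ordinal.{0}} (h : TG A (b * δ)) :
    ∃ B : δ.ToType → Set V, (∀ i, B i ⊆ A) ∧ (∀ i, TG (B i) b) ∧
      ∀ i j, i < j → ∀ x ∈ B i, ∀ y ∈ B j, x < y := by
  obtain ⟨g, hg, hm⟩ := h
  let e := (Ordinal.ToType.mk (o := δ)).symm
  have hlt : ∀ (i : δ.ToType) (x : Ordinal.{0}), x < b → b * (e i).1 + x < b * δ := by
    intro i x hx
    calc b * (e i).1 + x < b * (e i).1 + b := (add_lt_add_iff_left _).2 hx
      _ = b * Order.succ (e i).1 := (Ordinal.mul_succ _ _).symm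
      _ ≤ b * δ := by
        refine mul_le_mul_right ?_ b
        exact Order.succ_le_of_lt (e i).2
  refine ⟨fun i => {v | ∃ x < b, v = g (b * (e i).1 + x)}, ?_, ?_, ?_⟩
  · rintro i _ ⟨x, hx, rfl⟩
    exact hg _ (hlt i x hx)
  · intro i
    exact ⟨fun x => g (b * (e i).1 + x), fun x hx => ⟨x, hx, rfl⟩, fun x y hxy hy =>
      hm _ _ ((add_lt_add_iff_left _).2 hxy) (hlt i y hy)⟩
  · rintro i j hij _ ⟨x, hx, rfl⟩ _ ⟨y, hy, rfl⟩
    refine hm _ _ ?_ (hlt j y hy)
    calc b * (e i).1 + x < b * (e i).1 + b := (add_lt_add_iff_left _).2 hx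
      _ = b * Order.succ (e i).1 := (Ordinal.mul_succ _ _).symm
      _ ≤ b * (e j).1 := by
        refine mul_le_mul_right ?_ b
        exact Order.succ_le_of_lt (e.lt_iff_lt.2 hij)
      _ ≤ b * (e j).1 + y := le_self_add

theorem big_of_tg {A : Set V} {K : Cardinal.{0}} (h : TG A K.ord) : K ≤ #A := by
  have h1 := le_typ_of_tg h
  have h2 := Ordinal.card_le_card h1
  rw [Cardinal.card_ord] at h2
  unfold typ at h2
  rwa [Ordinal.card_type] at h2

theorem tg_of_big {A : Set V} {K : Cardinal.{0}} (h : K ≤ #A) : TG A K.ord := by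
  rw [tg_iff, Cardinal.ord_le]
  unfold typ
  rw [Ordinal.card_type]
  exact h

/-- the theorem for forests -/
theorem forest_ed {Θ : Type} [Infinite Θ] {κ : Cardinal.{0}} (hκ : ℵ₀ ≤ κ)
    (hE : EDT Θ κ.ord.ToType) {out : V → Finset V} (hT : Tr out) {δ : Ordinal.{0}}
    (hδ : δ.card ≤ κ) (hV : TG (Set.univ : Set V) ((Order.succ #Θ).ord * δ)) :
    ∃ X : Set V, (∀ x ∈ X, ∀ y ∈ X, y ∉ out x) ∧ TG X ((Order.succ #Θ).ord * δ) := by
  classical
  rcases eq_or_ne δ 0 with rfl | hδ0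
  · refine ⟨∅, fun x hx => absurd hx (Set.notMem_empty x), ?_⟩
    rw [mul_zero]
    exact tg_zero _
  have hN : Nonempty δ.ToType := Ordinal.nonempty_toType_iff.2 hδ0
  obtain ⟨B, -, hB2, hB3⟩ := blocks_any hV
  have hdis : ∀ i j v, v ∈ B i → v ∈ B j → i = j := by
    intro i j v hi hj
    rcases lt_trichotomy i j with h | h | h
    · exact absurd (hB3 i j h v hi v hj) (lt_irrefl _)
    · exact h
    · exact absurd (hB3 j i h v hj v hi) (lt_irrefl _)
  obtain ⟨color, T, n, hcol⟩ := color_blocks (Θ := Θ) hT B hdis fun i => big_of_tg (hB2 i)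
  let F : δ.ToType → ℕ → Option Θ := fun i m =>
    if h : ∃ a, (m, a) ∈ T i then some h.choose else none
  have hW : #δ.ToType ≤ κ := by
    rw [Cardinal.mk_toType]
    exact hδ
  obtain ⟨g, hg⟩ := av_type hκ hE hW F (δ := δ) (tg_iff.2 (typ_univ δ).ge)
  refine ⟨{v | color v = g (out v).card ∧ ∀ u ∈ out v, color u ≠ g (out u).card}, ?_, ?_⟩
  · rintro x ⟨-, hx⟩ y ⟨hy, -⟩ hyx
    exact hx y hyx hy
  · refine tg_of_blocks' hB3 _ hg ?_
    intro i hi
    refine tg_of_big ((hcol i (g (n i))).trans (Cardinal.mk_le_mk_of_subset ?_))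
    rintro v ⟨hv1, hv2, hv3, hv4⟩
    refine ⟨⟨?_, ?_⟩, hv1⟩
    · rw [hv2]
      exact hv4
    · intro u hu heq
      have h1 : ((out u).card, color u) ∈ T i := by
        rw [← hv3]
        exact (mem_pat color v _).2 ⟨u, hu, rfl⟩
      have hex : ∃ a, ((out u).card, a) ∈ T i := ⟨_, h1⟩
      have h2 : F i (out u).card = some hex.choose := dif_pos hex
      have h3 : ((out u).card, hex.choose) ∈ pat out color v := by
        rw [hv3]
        exact hex.choose_spec
      obtain ⟨u', hu', he⟩ := (mem_pat color v _).1 h3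
      have h4 : u' = u := lev_inj hT hu' hu (congrArg Prod.fst he)
      have h5 : color u' = hex.choose := congrArg Prod.snd he
      refine hi (out u).card ?_
      rw [h2, ← h5, h4, heq]

end Pool.Agent.CZ

namespace Pool.Agent.CZ

open Pool.Agent.H68.OG Pool.Agent.CP Pool.Agent.CY

/-- multiples of the successor of the number of colours -/
theorem pi_ed_mul {Θ : Type} [Infinite Θ] {κ : Cardinal.{0}} (hκ : ℵ₀ ≤ κ)
    (hE : EDT Θ κ.ord.ToType) {δ : Ordinal.{0}} (hδ : δ.card ≤ κ) :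
    PI ((Order.succ #Θ).ord * δ) := by
  rcases eq_or_ne ((Order.succ #Θ).ord * δ) 0 with h0 | h0
  · rw [h0]
    exact pi_zero
  intro G
  by_cases hGr : ∃ f : ℕ → ((Order.succ #Θ).ord * δ).ToType,
      Function.Injective f ∧ ∀ n, G.Adj (f n) (f (n + 1))
  · exact Or.inl hGr
  · right
    have hN : Nonempty ((Order.succ #Θ).ord * δ).ToType := Ordinal.nonempty_toType_iff.2 h0
    obtain ⟨out, hT, hout⟩ := exists_forest G hGr
    obtain ⟨X, hX1, hX2⟩ := forest_ed hκ hE hT hδ (tg_iff.2 (typ_univ _).ge)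
    refine ⟨X, ?_, typ_eq_of_tg hX2⟩
    intro x hx y hy hadj
    rcases hout x y hadj with h | h
    · exact hX1 y hy x hx h
    · exact hX1 x hx y hy h

/-- Reduction modulo `θ⁺`: if any `κ` functions `ℕ → θ` have an eventually different one, then
for all limit ordinals `α` of cardinality at most `κ` the path property at `α` only depends on
the remainder of `α` modulo `θ⁺`. -/
theorem pi_mod_of_edt {Θ : Type} [Infinite Θ] {κ : Cardinal.{0}} (hκ : ℵ₀ ≤ κ)
    (hE : EDT Θ κ.ord.ToType) {α : Ordinal.{0}} (hα : ω ∣ α) (hακ : α.card ≤ κ)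
    (hP : PI (α % (Order.succ #Θ).ord)) : PI α := by
  have hΘ : ℵ₀ ≤ #Θ := Cardinal.infinite_iff.1 inferInstance
  have hK0 : ℵ₀ < Order.succ #Θ := hΘ.trans_lt (Order.lt_succ _)
  have hk0 : 0 < (Order.succ #Θ).ord := Cardinal.ord_pos.2 (aleph0_pos.trans hK0)
  have hlt : α % (Order.succ #Θ).ord < (Order.succ #Θ).ord := Ordinal.mod_lt α hk0.ne'
  have hdm := Ordinal.div_add_mod α (Order.succ #Θ).ord
  have h1 : ω ∣ (Order.succ #Θ).ord := by
    have h6 := ord_dvd_ord (μ := ℵ₀) (κ := Order.succ #Θ) le_rfl hK0.le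
    rwa [Cardinal.ord_aleph0] at h6
  have hd : ω ∣ α % (Order.succ #Θ).ord := by
    rw [← hdm] at hα
    exact (Ordinal.dvd_add_iff (h1.mul_right _)).1 hα
  rw [← hdm]
  refine pi_comb hK0 hlt hd ?_ hP
  refine pi_ed_mul hκ hE ((Ordinal.card_le_card ?_).trans hακ)
  exact Ordinal.div_le_of_le_mul (Ordinal.le_mul_right α hk0)

/-- All limit ordinals of cardinality at most `κ`, for `κ < non(M)`. -/
theorem pi_of_edif {κ : Cardinal.{0}} (hκ : ℵ₀ ≤ κ) (hE : EDT ℕ κ.ord.ToType) {α : Ordinal.{0}}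
    (hα : ω ∣ α) (hακ : α.card ≤ κ) : PI α := by
  refine pi_mod_of_edt hκ hE hα hακ ?_
  rw [Cardinal.mk_nat]
  have hk0 : 0 < (Order.succ ℵ₀ : Cardinal.{0}).ord :=
    Cardinal.ord_pos.2 (aleph0_pos.trans (Order.lt_succ _))
  have hdm := Ordinal.div_add_mod α (Order.succ ℵ₀ : Cardinal.{0}).ord
  have h1 : ω ∣ (Order.succ ℵ₀ : Cardinal.{0}).ord := by
    have h6 := ord_dvd_ord (μ := ℵ₀) (κ := Order.succ ℵ₀) le_rfl (Order.le_succ _)
    rwa [Cardinal.ord_aleph0] at h6
  have hd : ω ∣ α % (Order.succ ℵ₀ : Cardinal.{0}).ord := by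
    rw [← hdm] at hα
    exact (Ordinal.dvd_add_iff (h1.mul_right _)).1 hα
  refine pi_countable hd ?_
  have h2 := Cardinal.lt_ord.1 (Ordinal.mod_lt α hk0.ne')
  exact Order.lt_succ_iff.1 h2

end Pool.Agent.CZ
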