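import Mathlib
import Pool.Agent.Lib_helper80.CZ.Sharp2

/-!
# CZ: norms of functions on `ω`, `ω₁` and `ω₂`
-/

set_option autoImplicit false
set_option linter.unusedSectionVars false
set_option linter.deprecated false

open Cardinal Ordinal Set

namespace Pool.Agent.CZ

open Pool.Agent.H68.OG Pool.Agent.CQ

section Gen

variable {Λ : Type}

theorem nge_anti {M : Set Λ} {ρ σ : Ordinal.{0}} {h : Λ → Ordinal.{0}} (H : NGe M ρ h)
    (hσ : σ ≤ ρ) : NGe M σ h := NGe.of fun τ hτ => H.out τ (hτ.trans_le hσ)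

theorem nge_add_one {M : Set Λ} {ρ : Ordinal.{0}} {h : Λ → Ordinal.{0}} (H : NGe M ρ h) :
    NGe M (ρ + 1) (fun ν => h ν + 1) := by
  refine NGe.of fun τ hτ => ⟨h, nge_anti H (Order.lt_add_one_iff.1 hτ), ?_⟩
  refine Set.finite_empty.subset ?_
  rintro ν ⟨-, hν⟩
  exact absurd hν (not_le.2 (Order.lt_add_one_iff.2 le_rfl))

/-- finite-to-one functions have all norms -/
theorem nge_fto (M : Set Λ) (ρ : Ordinal.{0}) : ∀ n : Λ → ℕ, (∀ k, {ν | ν ∈ M ∧ n ν ≤ k}.Finite) →
    NGe M ρ (fun ν => ((n ν : ℕ) : Ordinal.{0})) := by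
  induction ρ using WellFoundedLT.induction with
  | ind ρ IH =>
    intro n hn
    refine NGe.of fun σ hσ => ⟨fun ν => ((n ν - 1 : ℕ) : Ordinal.{0}),
      IH σ hσ (fun ν => n ν - 1) ?_, (hn 0).subset ?_⟩
    · intro k
      refine (hn (k + 1)).subset ?_
      rintro ν ⟨hν, hν'⟩
      exact ⟨hν, by omega⟩
    · rintro ν ⟨hν, hν'⟩
      beta_reduce at hν'
      have h3 : n ν ≤ n ν - 1 := by exact_mod_cast hν'
      exact ⟨hν, by omega⟩

end Gen

/-- functions `μ → μ` of norm at least `σ` -/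
def Nm (μ : Cardinal.{0}) (σ : Ordinal.{0}) : Prop :=
  ∃ h : μ.ord.ToType → Ordinal.{0}, (∀ ν, h ν < μ.ord) ∧
    NGe (Set.univ : Set μ.ord.ToType) σ h

theorem nm_aleph0 (σ : Ordinal.{0}) : Nm ℵ₀ σ := by
  have h1 : #(ℵ₀ : Cardinal.{0}).ord.ToType ≤ #ℕ := by
    rw [Cardinal.mk_toType, Cardinal.card_ord, Cardinal.mk_nat]
  obtain ⟨i⟩ := (Cardinal.le_def _ _).1 h1
  refine ⟨fun ν => ((i ν : ℕ) : Ordinal.{0}), fun ν => ?_, nge_fto _ _ i ?_⟩
  · exact (Ordinal.natCast_lt_omega0 (i ν)).trans_eq Cardinal.ord_aleph0.symm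
  · intro k
    refine Set.Finite.of_finite_image (f := i) ((Set.finite_Iic k).subset ?_) i.injective.injOn
    rintro _ ⟨ν, ⟨-, hν⟩, rfl⟩
    exact hν

theorem nm_aleph1 (σ : Ordinal.{0}) (hσ : σ.card ≤ Cardinal.aleph 1) : Nm (Cardinal.aleph 1) σ :=
  exists_norm σ hσ

/-- one cardinal up -/
theorem nm_succ {μ : Cardinal.{0}} (hμ : ℵ₀ ≤ μ) (H : ∀ σ : Ordinal.{0}, σ.card ≤ μ → Nm μ σ)
    (σ : Ordinal.{0}) (hσ : σ ≤ (Order.succ μ).ord) : Nm (Order.succ μ) σ := by
  classical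
  set K := Order.succ μ with hK
  have hKr : K.IsRegular := Cardinal.isRegular_succ hμ
  have hW : #K.ord.ToType = K := by rw [Cardinal.mk_toType, Cardinal.card_ord]
  let v : K.ord.ToType → Ordinal.{0} := fun a => (Ordinal.ToType.mk.symm a).1
  have hv : ∀ a, v a < K.ord := fun a => (Ordinal.ToType.mk.symm a).2
  have hvm : ∀ a b, a < b → v a < v b := fun a b hab =>
    (Ordinal.ToType.mk (o := K.ord)).symm.lt_iff_lt.2 hab
  have hvs : ∀ β, β < K.ord → ∃ a, v a = β := fun β hβ =>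
    ⟨Ordinal.ToType.mk ⟨β, hβ⟩, congrArg Subtype.val (OrderIso.symm_apply_apply
      (Ordinal.ToType.mk (o := K.ord)) ⟨β, hβ⟩)⟩
  obtain ⟨w, hw⟩ := hvs μ.ord (Cardinal.ord_lt_ord.2 (Order.lt_succ μ))
  suffices H' : ∃ h : K.ord.ToType → K.ord.ToType,
      NGe (Set.univ : Set K.ord.ToType) σ (fun ν => v (h ν)) by
    obtain ⟨h, hh⟩ := H'
    exact ⟨_, fun ν => hv _, hh⟩
  induction σ using WellFoundedLT.induction with
  | ind σ IH =>
    have IH' : ∀ τ : σ.ToType, ∃ h : K.ord.ToType → K.ord.ToType,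
        NGe (Set.univ : Set K.ord.ToType) (Ordinal.ToType.mk.symm τ).1 (fun ν => v (h ν)) :=
      fun τ => IH _ (Ordinal.ToType.mk.symm τ).2
        (le_of_lt ((Ordinal.ToType.mk.symm τ).2.trans_le hσ))
    choose G hG using IH'
    have h1 : #σ.ToType ≤ #K.ord.ToType := by
      rw [hW, Cardinal.mk_toType]
      exact (Ordinal.card_le_card hσ).trans_eq (Cardinal.card_ord K)
    obtain ⟨ι⟩ := (Cardinal.le_def _ _).1 h1
    have hIio : ∀ ν : K.ord.ToType, #(Set.Iio ν) < K := fun ν => Cardinal.mk_Iio_toType_ord_lt ν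
    have hb : ∀ ν, ∃ b, w < b ∧ ∀ τ, ι τ < ν → G τ ν < b := by
      intro ν
      have hc : #{τ | ι τ < ν} < K := by
        refine lt_of_le_of_lt ?_ (hIio ν)
        exact Cardinal.mk_le_of_injective (f := fun τ : {τ | ι τ < ν} =>
          (⟨ι τ.1, τ.2⟩ : Set.Iio ν)) (fun a b hab =>
            Subtype.ext (ι.injective (congrArg Subtype.val hab)))
      obtain ⟨b, hb⟩ := exists_bound hKr ({w} ∪ (fun τ => G τ ν) '' {τ | ι τ < ν}) (by
        refine lt_of_le_of_lt (Cardinal.mk_union_le _ _) (Cardinal.add_lt_of_lt hKr.1 ?_ ?_)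
        · simpa using one_lt_aleph0.trans_le hKr.1
        · exact lt_of_le_of_lt Cardinal.mk_image_le hc)
      exact ⟨b, hb w (Or.inl rfl), fun τ hτ => hb _ (Or.inr ⟨τ, hτ, rfl⟩)⟩
    choose h hh1 hh2 using hb
    refine ⟨h, NGe.of fun τ hτ => ?_⟩
    set t : σ.ToType := Ordinal.ToType.mk ⟨τ, hτ⟩ with ht
    have htτ : (Ordinal.ToType.mk.symm t).1 = τ := congrArg Subtype.val
      (OrderIso.symm_apply_apply (Ordinal.ToType.mk (o := σ)) ⟨τ, hτ⟩)
    -- the part up to `ι t`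
    obtain ⟨s, hs1, hs2⟩ := H τ (by
      have h3 : τ < K.ord := hτ.trans_le hσ
      rw [Cardinal.lt_ord] at h3
      exact Order.lt_succ_iff.1 h3)
    have hSc : #(Set.Iic (ι t)) ≤ #μ.ord.ToType := by
      rw [Cardinal.mk_toType μ.ord, Cardinal.card_ord]
      refine Order.lt_succ_iff.1 ?_
      have h4 : Set.Iic (ι t) ⊆ Set.Iio (ι t) ∪ {ι t} := by
        intro x hx
        rcases (show x ≤ ι t from hx).lt_or_eq with h3 | h3
        · exact Or.inl h3
        · exact Or.inr h3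
      refine lt_of_le_of_lt (Cardinal.mk_le_mk_of_subset h4) (lt_of_le_of_lt
        (Cardinal.mk_union_le _ _) (Cardinal.add_lt_of_lt hKr.1 (hIio _) ?_))
      rw [Cardinal.mk_singleton]
      exact one_lt_aleph0.trans_le hKr.1
    obtain ⟨j⟩ := (Cardinal.le_def _ _).1 hSc
    have hNμ : Nonempty μ.ord.ToType := by
      rw [← Cardinal.mk_ne_zero_iff, Cardinal.mk_toType, Cardinal.card_ord]
      exact (aleph0_pos.trans_le hμ).ne'
    let i : K.ord.ToType → μ.ord.ToType := fun ν =>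
      if hν : ν ∈ Set.Iic (ι t) then j ⟨ν, hν⟩ else hNμ.some
    have hi : Set.InjOn i (Set.Iic (ι t)) := by
      intro a ha b hb hab
      simp only [i] at hab
      rw [dif_pos ha, dif_pos hb] at hab
      exact congrArg Subtype.val (j.injective hab)
    have hGt := hG t
    rw [htτ] at hGt
    have h5 := (hs2.comap i hi).union hGt
    rw [Set.union_univ] at h5
    refine ⟨_, h5, Set.finite_empty.subset ?_⟩
    rintro ν ⟨-, hν⟩
    have h6 : v w < v (h ν) := hvm _ _ (hh1 ν)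
    rw [hw] at h6
    by_cases hS : ν ∈ Set.Iic (ι t)
    · simp only [hS, if_true, Function.comp_apply] at hν
      exact absurd (h6.trans_le hν) (not_lt.2 (hs1 _).le)
    · simp only [hS, if_false] at hν
      have h7 : ι t < ν := not_le.1 hS
      exact absurd (hvm _ _ (hh2 ν t h7)) (not_lt.2 hν)

/-- the omission property fails at `μ⁺ ^ (μ + 2)` -/
theorem not_part_of_nm {μ : Cardinal.{0}} (hμ : ℵ₀ ≤ μ) (H : ∀ σ < μ.ord + 2, Nm μ σ) :
    ¬ Part (Order.succ μ) ((Order.succ μ).ord ^ (μ.ord + 2)) := by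
  classical
  refine not_part_point (Cardinal.isRegular_succ hμ) (Cardinal.isSuccLimit_ord hμ)
    (Cardinal.ord_lt_ord.2 (Order.lt_succ μ)) ?_
  intro c hc σ hσ
  obtain ⟨h, hh1, hh2⟩ := H σ hσ
  have hcμ : c.card ≤ μ := by
    rw [Cardinal.lt_ord] at hc
    exact Order.lt_succ_iff.1 hc
  have h3 : #{a : (Order.succ μ).ord.ToType | val a < c} ≤ #μ.ord.ToType := by
    have h4 : #{a : (Order.succ μ).ord.ToType | val a < c} ≤ #c.ToType := by
      refine Cardinal.mk_le_of_injective (f := fun a : {a : (Order.succ μ).ord.ToType |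
        val a < c} => (Ordinal.ToType.mk ⟨val a.1, a.2⟩ : c.ToType)) ?_
      intro a b hab
      have h5 := congrArg Subtype.val ((Ordinal.ToType.mk (o := c)).injective hab)
      have h6 : val a.1 = val b.1 := h5
      exact Subtype.ext ((Ordinal.ToType.mk (o := (Order.succ μ).ord)).symm.injective
        (Subtype.ext h6))
    refine h4.trans ?_
    rw [Cardinal.mk_toType, Cardinal.mk_toType, Cardinal.card_ord]
    exact hcμ
  obtain ⟨ι⟩ := (Cardinal.le_def _ _).1 h3
  have hNμ : Nonempty μ.ord.ToType := by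
    rw [← Cardinal.mk_ne_zero_iff, Cardinal.mk_toType, Cardinal.card_ord]
    exact (aleph0_pos.trans_le hμ).ne'
  let i : (Order.succ μ).ord.ToType → μ.ord.ToType := fun a =>
    if ha : val a < c then ι ⟨a, ha⟩ else hNμ.some
  have hi : Set.InjOn i {a | val a < c} := by
    intro a ha b hb hab
    have ha' : val a < c := ha
    have hb' : val b < c := hb
    simp only [i, ha', hb', dif_pos] at hab
    exact congrArg Subtype.val (ι.injective hab)
  exact ⟨h ∘ i, fun ν => hh1 _, hh2.comap i hi⟩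

/-- the cases `ω`, `ω₁`, `ω₂` -/
theorem not_part_le2 (n : ℕ) (hn : n ≤ 2) :
    ¬ Part (Order.succ (Cardinal.aleph n)) ((Order.succ (Cardinal.aleph n)).ord ^
      ((Cardinal.aleph n).ord + 2)) := by
  refine not_part_of_nm (Cardinal.aleph0_le_aleph _) ?_
  intro σ hσ
  have hcard : ∀ μ : Cardinal.{0}, ℵ₀ ≤ μ → σ < μ.ord + 2 → σ.card ≤ μ := by
    intro μ hμ h
    refine (Ordinal.card_le_card h.le).trans ?_
    rw [Ordinal.card_add, Cardinal.card_ord]
    refine Cardinal.add_le_of_le hμ le_rfl ?_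
    have h2 : (2 : Ordinal.{0}) = ((2 : ℕ) : Ordinal.{0}) := by norm_num
    rw [h2, Ordinal.card_nat]
    exact (Cardinal.natCast_lt_aleph0 (n := 2)).le.trans hμ
  interval_cases n
  · rw [Nat.cast_zero, Cardinal.aleph_zero]
    exact nm_aleph0 σ
  · rw [Nat.cast_one] at hσ ⊢
    exact nm_aleph1 σ (hcard _ (Cardinal.aleph0_le_aleph _) hσ)
  · have e : (Cardinal.aleph ((2 : ℕ) : Ordinal.{0}) : Cardinal.{0}) =
        Order.succ (Cardinal.aleph 1) := by
      rw [Cardinal.succ_aleph]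
      congr 1
      rw [Nat.cast_ofNat]
      exact one_add_one_eq_two.symm
    rw [e] at hσ ⊢
    have h1 := nm_succ (Cardinal.aleph0_le_aleph 1) nm_aleph1 _ le_rfl
    obtain ⟨h, hh1, hh2⟩ := h1
    have hlim : Order.IsSuccLimit (Order.succ (Cardinal.aleph 1)).ord :=
      Cardinal.isSuccLimit_ord ((Cardinal.aleph0_le_aleph 1).trans (Order.le_succ _))
    refine ⟨fun ν => h ν + 1, fun ν => hlim.add_one_lt (hh1 ν), nge_anti (nge_add_one hh2) ?_⟩
    have e2 : ((Order.succ (Cardinal.aleph 1)).ord + 2 : Ordinal.{0}) =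
        ((Order.succ (Cardinal.aleph 1)).ord + 1) + 1 := by
      rw [add_assoc, one_add_one_eq_two]
    rw [e2] at hσ
    exact Order.lt_add_one_iff.1 hσ

end Pool.Agent.CZ
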