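import Mathlib
import Pool.Agent.Lib_helper80.CX.Level3
import Pool.Agent.Lib_helper80.CZ.Main
import Pool.Agent.Lib_helper80.CZ.Norm2

/-!
# CZ: consequences
-/

set_option autoImplicit false
set_option linter.unusedSectionVars false
set_option linter.deprecated false

open Cardinal Ordinal Set

namespace Pool.Agent.CZ

open Pool.Agent.H68.OG Pool.Agent.CV Pool.Agent.CW Pool.Agent.CX

/-- `κ < non(M)` or `κ < cov(M_κ)` -/
def OkC (κ : Cardinal.{0}) : Prop := EDT ℕ κ.ord.ToType ∨ Cov κ.ord.ToType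

theorem pi_okc {κ : Cardinal.{0}} (hκ : ℵ₀ ≤ κ) (hC : OkC κ) {α : Ordinal.{0}} (hα : ω ∣ α)
    (hακ : α.card ≤ κ) : PI α := by
  rcases hC with hC | hC
  · exact pi_of_edif hκ hC hα hακ
  · exact pi_of_cov hκ hC hα hακ

theorem dvd_mod {κ : Cardinal.{0}} (hκ : ℵ₀ ≤ κ) {α : Ordinal.{0}} (hα : ω ∣ α) :
    ω ∣ α % κ.ord := by
  have h1 : ω ∣ κ.ord := by
    have h6 := ord_dvd_ord (μ := ℵ₀) (κ := κ) le_rfl hκ
    rwa [Cardinal.ord_aleph0] at h6
  rw [← Ordinal.div_add_mod α κ.ord] at hα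
  exact (Ordinal.dvd_add_iff (h1.mul_right _)).1 hα

/-- a bit further -/
theorem pi_up {κ : Cardinal.{0}} (hκ : ℵ₀ ≤ κ)
    (hP : ∀ α : Ordinal.{0}, ω ∣ α → α.card ≤ κ → PI α) {α : Ordinal.{0}} (hα : ω ∣ α)
    (hlt : α < (Order.succ κ).ord ^ (κ.ord + 2)) : PI α := by
  set K := Order.succ κ with hK
  have hK0 : ℵ₀ ≤ K := hκ.trans (Order.le_succ κ)
  have hk0 : K.ord ≠ 0 := (zero_lt_one.trans (one_lt_ord' hK0)).ne'
  have hdm := Ordinal.div_add_mod α K.ord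
  have hε : α % K.ord < K.ord := Ordinal.mod_lt α hk0
  have hd : ω ∣ α % K.ord := dvd_mod hK0 hα
  have hlt' : K.ord * (α / K.ord) < K.ord ^ (κ.ord + 2) := (Ordinal.mul_div_le _ _).trans_lt hlt
  rw [← hdm]
  rcases eq_or_ne (α % K.ord) 0 with h0 | h0
  · rw [h0, add_zero]
    exact pi_mul hκ (Order.lt_succ κ) _ hlt'
  · refine (pi_iff' hκ (Order.lt_succ κ) _ hlt' _ hε
      (Ordinal.isSuccLimit_iff_omega0_dvd.2 ⟨h0, hd⟩)).2 (hP _ hd ?_)
    rw [Cardinal.lt_ord] at hε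
    exact Order.lt_succ_iff.1 hε

section Lam

variable {lam : Cardinal.{0}}
  (hP : ∀ α : Ordinal.{0}, ω ∣ α → α.card < lam → PI α)

include hP in
theorem pi_all_of (hlam : lam.IsRegular) (hlam0 : ℵ₀ < lam)
    (hR : CQ.RF lam.ord.ToType) {α : Ordinal.{0}} (hα : ω ∣ α) : PI α := by
  refine CQ.pi_of_mod' hlam hlam0 hR α hα (hP _ (dvd_mod hlam.1 hα) ?_)
  exact Cardinal.lt_ord.1 (Ordinal.mod_lt α (Cardinal.ord_pos.2 hlam.pos).ne')

include hP in
/-- Levels below `λ` are harmless. -/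
theorem pi_levels_lam (α : Ordinal.{0}) (hd : ω ∣ α)
    (hs : ∀ κ : Cardinal.{0}, lam ≤ κ → ℵ₀ < κ → ¬ κ.IsRegular → ¬ Hl κ →
      α % (Order.succ κ).ord < κ.ord)
    (hr : ∀ κ : Cardinal.{0}, lam ≤ κ → κ.IsRegular → ℵ₀ < κ →
      CQ.Part κ (α % (Order.succ κ).ord / κ.ord)) : PI α := by
  refine pi_levels_of (fun κ β => lam ≤ κ → (¬ κ.IsRegular → ¬ Hl κ → β < κ.ord) ∧
    (κ.IsRegular → CQ.Part κ (β / κ.ord))) ?_ ?_ α hd
    fun κ hκ hl => ⟨hs κ hl hκ, fun h => hr κ hl h hκ⟩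
  · intro κ hκ β hβ hdβ hQ hPβ
    rcases lt_or_ge κ lam with hlt | hle
    · refine hP _ hdβ (lt_of_le_of_lt ?_ hlt)
      rw [Cardinal.lt_ord] at hβ
      exact Order.lt_succ_iff.1 hβ
    · have hQ' := hQ hle
      by_cases hreg : κ.IsRegular
      · exact level_part hreg hκ hβ (hQ'.2 hreg) hdβ hPβ
      · by_cases hl : Hl κ
        · exact level_hl hκ hl hβ hdβ hPβ
        · have h1 := hQ'.1 hreg hl
          rwa [Ordinal.mod_eq_of_lt h1] at hPβ
  · intro κ hκ β hβ _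
    refine ⟨fun _ _ => hβ, fun h => ?_⟩
    rw [Ordinal.div_eq_zero_of_lt hβ]
    exact CQ.part_zero hκ.le

include hP in
/-- the criterion when GCH holds from `λ` on -/
theorem pi_gch_lam (hlam : lam.IsRegular)
    (h2 : ∀ μ < lam, (2 : Cardinal.{0}) ^ μ ≤ lam)
    (hgch : ∀ κ : Cardinal.{0}, lam ≤ κ → (2 : Cardinal.{0}) ^ κ = Order.succ κ)
    (α : Ordinal.{0}) (hd : ω ∣ α) :
    PI α ↔ ∀ κ : Cardinal.{0}, lam ≤ κ → κ.IsRegular → ℵ₀ < κ →
      CQ.Part κ (α % (Order.succ κ).ord / κ.ord) := by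
  refine ⟨fun h κ hle hκ hκ0 => CQ.part_of_pi hκ hκ0 (fun μ hμ => ?_) h, fun h =>
    pi_levels_lam hP α hd (fun κ hle hκ hreg hn => absurd ?_ hn) h⟩
  · rcases lt_or_ge μ lam with h1 | h1
    · exact (h2 μ h1).trans hle
    · rw [hgch μ h1]
      exact Order.succ_le_of_lt hμ
  · refine Or.inr fun μ hμ => ?_
    have hlt : lam < κ := by
      refine lt_of_le_of_ne hle ?_
      rintro rfl
      exact hreg hlam
    have hθ0 := aleph0_le_cof' hκ
    have hθ := cof_lt_self hκ hreg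
    set x := max μ κ.ord.cof with hx
    have hx0 : ℵ₀ ≤ x := hθ0.trans (le_max_right _ _)
    have hxκ : x < κ := max_lt hμ hθ
    refine lt_of_le_of_lt ?_ (show (2 : Cardinal.{0}) ^ x < κ from ?_)
    · calc μ ^ κ.ord.cof ≤ x ^ κ.ord.cof := Cardinal.power_le_power_right (le_max_left _ _)
        _ ≤ x ^ x := Cardinal.power_le_power_left (aleph0_pos.trans_le hx0).ne' (le_max_right _ _)
        _ = 2 ^ x := Cardinal.power_self_eq hx0
    · rcases lt_or_ge x lam with h1 | h1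
      · exact (h2 x h1).trans_lt hlt
      · rw [hgch x h1]
        exact succ_lt_of_sing hreg hx0 hxκ

end Lam

/-- the conjecture gives reverse-free sequences -/
theorem rf_of_conj {κ : Cardinal.{0}} (hκ : κ.IsRegular) (hκ0 : ℵ₀ < κ)
    (h2 : ∀ μ < κ, (2 : Cardinal.{0}) ^ μ ≤ κ)
    (hA : ∀ α : Ordinal.{0}, Order.IsSuccLimit α → PI α) : CQ.RF κ.ord.ToType := by
  by_contra hcon
  obtain ⟨δ, hδ, hP⟩ := CQ.not_part_of_not_rf hκ.1 hcon
  have h3 := CQ.not_pi hκ hκ0 h2 δ 0 hδ hP (Cardinal.ord_pos.2 hκ.pos)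
  rw [add_zero] at h3
  rcases eq_or_ne δ 0 with rfl | hδ0
  · rw [mul_zero] at h3
    exact h3 pi_zero
  · refine h3 (hA _ ⟨?_, Ordinal.isSuccPrelimit_iff_omega0_dvd.2 ?_⟩)
    · rw [isMin_iff_eq_bot]
      exact mul_ne_zero (Cardinal.ord_pos.2 hκ.pos).ne' hδ0
    · have h5 : ω ∣ κ.ord := by
        have h6 := ord_dvd_ord (μ := ℵ₀) (κ := κ) le_rfl hκ.1
        rwa [Cardinal.ord_aleph0] at h6
      exact h5.mul_right δ

/-- failure at `μ⁺ ^ (μ + 2)` -/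
theorem not_pi_point {μ : Cardinal.{0}} (hμ : ℵ₀ ≤ μ)
    (hN : ¬ CQ.Part (Order.succ μ) ((Order.succ μ).ord ^ (μ.ord + 2)))
    (h2 : (2 : Cardinal.{0}) ^ μ = Order.succ μ) : ¬ PI ((Order.succ μ).ord ^ (μ.ord + 2)) := by
  intro hPI
  set K := Order.succ μ with hK
  have hKr : K.IsRegular := Cardinal.isRegular_succ hμ
  have hK0 : ℵ₀ < K := hμ.trans_lt (Order.lt_succ μ)
  have hk0 : K.ord ≠ 0 := (Cardinal.ord_pos.2 hKr.pos).ne'
  have h3 := CQ.part_of_pi hKr hK0 (fun ν hν => (Cardinal.power_le_power_left two_ne_zero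
    (Order.lt_succ_iff.1 hν)).trans_eq h2) hPI
  have hω : ω ≤ μ.ord := by
    rw [← Cardinal.ord_aleph0]
    exact Cardinal.ord_le_ord.2 hμ
  have hcard : (K.ord ^ (μ.ord + 2)).card ≤ K := by
    refine (Ordinal.card_opow_le_of_omega0_le_left ?_ _).trans ?_
    · exact hω.trans (Cardinal.ord_le_ord.2 (Order.le_succ μ))
    · rw [Cardinal.card_ord]
      refine max_le le_rfl ?_
      rw [Ordinal.card_add, Cardinal.card_ord]
      refine Cardinal.add_le_of_le hK0.le (Order.le_succ μ) ?_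
      have e2 : (2 : Ordinal.{0}) = ((2 : ℕ) : Ordinal.{0}) := by norm_num
      rw [e2, Ordinal.card_nat]
      exact (Cardinal.natCast_lt_aleph0 (n := 2)).le.trans hK0.le
  have hlt : K.ord ^ (μ.ord + 2) < (Order.succ K).ord := by
    rw [Cardinal.lt_ord]
    exact hcard.trans_lt (Order.lt_succ K)
  have e : K.ord ^ (μ.ord + 2) = K.ord * K.ord ^ (μ.ord + 2) := by
    conv_lhs => rw [← Ordinal.one_add_of_omega0_le hω, add_assoc, Ordinal.opow_add,
      Ordinal.opow_one]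
  rw [Ordinal.mod_eq_of_lt hlt, e, Ordinal.mul_div_cancel _ hk0] at h3
  exact hN h3

/-- the least counterexample -/
theorem least_point {μ : Cardinal.{0}} (hμ : ℵ₀ ≤ μ)
    (hP : ∀ α : Ordinal.{0}, ω ∣ α → α.card ≤ μ → PI α)
    (hN : ¬ CQ.Part (Order.succ μ) ((Order.succ μ).ord ^ (μ.ord + 2)))
    (h2 : (2 : Cardinal.{0}) ^ μ = Order.succ μ) :
    IsLeast {α : Ordinal.{0} | Order.IsSuccLimit α ∧ ¬ PI α}
      ((Order.succ μ).ord ^ (μ.ord + 2)) := by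
  set K := Order.succ μ with hK
  have hKr : K.IsRegular := Cardinal.isRegular_succ hμ
  have hk0 : 0 < K.ord := Cardinal.ord_pos.2 hKr.pos
  refine ⟨⟨Ordinal.isSuccLimit_iff_omega0_dvd.2 ⟨(Ordinal.opow_pos _ hk0).ne', ?_⟩,
    not_pi_point hμ hN h2⟩, ?_⟩
  · have h5 : ω ∣ K.ord := by
      have h6 := ord_dvd_ord (μ := ℵ₀) (κ := K) le_rfl hKr.1
      rwa [Cardinal.ord_aleph0] at h6
    refine h5.trans ?_
    have h7 := Ordinal.opow_dvd_opow K.ord (show (1 : Ordinal.{0}) ≤ μ.ord + 2 from ?_)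
    · rwa [Ordinal.opow_one] at h7
    · have h8 : (1 : Ordinal.{0}) ≤ 2 := by norm_num
      exact h8.trans le_add_self
  · rintro α ⟨hα, hn⟩
    by_contra hcon
    rw [not_le] at hcon
    exact hn (pi_up hμ hP (Ordinal.isSuccPrelimit_iff_omega0_dvd.1 hα.isSuccPrelimit) hcon)

end Pool.Agent.CZ
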