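import Mathlib
import Pool.Agent.Lib_helper80.CZ.Seq

/-!
# CZ: eventually different functions by counting
-/

set_option autoImplicit false
set_option linter.unusedSectionVars false

open Cardinal Ordinal Set

namespace Pool.Agent.CZ

theorem edt_mono {Θ Ω Ω' : Type} (h : EDT Θ Ω) (hle : #Ω' ≤ #Ω) [Nonempty Ω'] : EDT Θ Ω' := by
  obtain ⟨i⟩ : Nonempty (Ω' ↪ Ω) := hle
  intro E
  obtain ⟨f, hf⟩ := h fun z => E (Function.invFun i z)
  refine ⟨f, fun z => ?_⟩
  have h1 := hf (i z)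
  rwa [Function.leftInverse_invFun i.injective z] at h1

/-- codes of initial segments -/
theorem edt_of_lt {Θ Ω : Type} [Infinite Θ] (h1 : #Ω < #Θ ^ ℵ₀) (h2 : (2 : Cardinal.{0}) ^ ℵ₀ < #Θ ^ ℵ₀) :
    EDT Θ Ω := by
  classical
  intro E
  by_contra hcon
  push Not at hcon
  obtain ⟨c⟩ : Nonempty (List Θ ↪ Θ) := (mk_list_eq_mk Θ).le
  have hz : ∀ g : ℕ → Θ, ∃ z, {n | c ((List.range n).map g) = E z n}.Infinite := fun g =>
    hcon fun n => c ((List.range n).map g)
  choose z hz using hz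
  have hinj : Function.Injective fun g : ℕ → Θ =>
      (z g, {n | c ((List.range n).map g) = E (z g) n}) := by
    intro g g' h
    rw [Prod.mk.injEq] at h
    obtain ⟨e1, e2⟩ := h
    funext m
    obtain ⟨n, hn, hmn⟩ := (hz g).exists_gt m
    have hn' : n ∈ {n | c ((List.range n).map g') = E (z g') n} := e2 ▸ hn
    replace hn' : c ((List.range n).map g') = E (z g') n := hn'
    replace hn : c ((List.range n).map g) = E (z g) n := hn
    have h3 : (List.range n).map g = (List.range n).map g' := by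
      apply c.injective
      rw [hn, hn', e1]
    exact (List.map_inj_left.1 h3) m (List.mem_range.2 hmn)
  have h3 := Cardinal.mk_le_of_injective hinj
  rw [Cardinal.mk_prod, Cardinal.lift_id, Cardinal.lift_id] at h3
  have h4 : #(ℕ → Θ) = #Θ ^ ℵ₀ := by
    rw [← Cardinal.mk_nat, Cardinal.power_def]
  have h5 : #(Set ℕ) = 2 ^ ℵ₀ := by
    rw [Cardinal.mk_set, Cardinal.mk_nat]
  rw [h4, h5] at h3
  have h6 : ℵ₀ ≤ #Θ ^ ℵ₀ := (Cardinal.cantor ℵ₀).le.trans h2.le
  exact absurd h3 (not_le.2 (Cardinal.mul_lt_of_lt h6 h1 h2))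

end Pool.Agent.CZ
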